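import Mathlib

/-!
# A Chebyshev center that is not a regularizer

In the plane take `q₁ = (x - y/2)² + (3y/2 + 1/3)² - 10/9` and
`q₂ = (x + y/2)² + (3y/2 + 1/3)² - 10/9`. The set `q₁ ≤ 0, q₂ ≤ 0` lies in the unit disc and
contains `(±1, 0)`, so its Chebyshev center is the origin, but both gradients at the origin are
`(0, 1)`. Below the coordinates are shifted by `(1/9, 2/9)` so that the centre of the first
ellipse is the origin.
-/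

open Set

namespace Pool.Agent.Results.MP_ef9ba3_an.RealCounterexample

variable {H : Type*} [NormedAddCommGroup H] [InnerProductSpace ℝ H] {m : ℕ}

/-- The consistent set `K_{y,E} = {f : ‖P f‖ ≤ ε, ‖y - Λ f‖ ≤ η}`. -/
def consistent (P : H →ₗ[ℝ] H) (L : H →ₗ[ℝ] EuclideanSpace ℝ (Fin m)) (ε η : ℝ)
    (y : EuclideanSpace ℝ (Fin m)) : Set H := {f | ‖P f‖ ≤ ε ∧ ‖y - L f‖ ≤ η}

/-- `sup_{f ∈ K} ‖f - z‖`. -/
noncomputable def rad (K : Set H) (z : H) : ℝ := sSup ((fun f => ‖f - z‖) '' K)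

/-- `z` is a Chebyshev center of `K`: it minimises `sup_{f ∈ K} ‖f - z‖`. -/
def IsChebyshevCenter (K : Set H) (z : H) : Prop := ∀ w, rad K z ≤ rad K w

/-- The regularization functional `F_τ`. -/
noncomputable def F (P : H →ₗ[ℝ] H) (L : H →ₗ[ℝ] EuclideanSpace ℝ (Fin m))
    (y : EuclideanSpace ℝ (Fin m)) (τ : ℝ) (f : H) : ℝ :=
  (1 - τ) * ‖P f‖ ^ 2 + τ * ‖y - L f‖ ^ 2

/-- the plane -/
abbrev E2 := EuclideanSpace ℝ (Fin 2)

/-- `P (x, y) = (x - y/2, 3y/2)` -/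
noncomputable def P0 : E2 →ₗ[ℝ] E2 := Matrix.toEuclideanLin !![1, -1/2; 0, 3/2]

/-- `Λ (x, y) = (x + y/2, 3y/2)` -/
noncomputable def L0 : E2 →ₗ[ℝ] E2 := Matrix.toEuclideanLin !![1, 1/2; 0, 3/2]

/-- the data -/
noncomputable def y0 : E2 := !₂[2/9, 0]

/-- the Chebyshev center -/
noncomputable def c0 : E2 := !₂[1/9, 2/9]

lemma nsq (f : E2) : ‖f‖ ^ 2 = f 0 ^ 2 + f 1 ^ 2 := by
  rw [EuclideanSpace.real_norm_sq_eq, Fin.sum_univ_two]

lemma nP (f : E2) : ‖P0 f‖ ^ 2 = (f 0 - f 1 / 2) ^ 2 + (3 / 2 * f 1) ^ 2 := by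
  rw [nsq]
  simp [P0, Matrix.toLpLin_apply, dotProduct, Fin.sum_univ_two]
  ring

lemma nL (f : E2) : ‖y0 - L0 f‖ ^ 2 =
    (2 / 9 - (f 0 + f 1 / 2)) ^ 2 + (3 / 2 * f 1) ^ 2 := by
  rw [nsq]
  simp [L0, y0, Matrix.toLpLin_apply, dotProduct, Fin.sum_univ_two]
  ring

/-- the radius `√(10/9)` -/
noncomputable def e0 : ℝ := Real.sqrt (10 / 9)

lemma e0_pos : 0 < e0 := Real.sqrt_pos.2 (by norm_num)

lemma mem_iff (f : E2) : f ∈ consistent P0 L0 e0 e0 y0 ↔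
    (f 0 - f 1 / 2) ^ 2 + (3 / 2 * f 1) ^ 2 ≤ 10 / 9 ∧
      (2 / 9 - (f 0 + f 1 / 2)) ^ 2 + (3 / 2 * f 1) ^ 2 ≤ 10 / 9 := by
  unfold consistent e0
  rw [mem_ofPred_eq, Real.le_sqrt (norm_nonneg _) (by norm_num),
    Real.le_sqrt (norm_nonneg _) (by norm_num), nP, nL]

/-- the consistent set lies in the unit disc around `c0` -/
lemma in_disc {f : E2} (hf : f ∈ consistent P0 L0 e0 e0 y0) : ‖f - c0‖ ≤ 1 := by
  obtain ⟨h1, h2⟩ := (mem_iff f).1 hf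
  rw [← sq_le_one_iff₀ (norm_nonneg _), nsq]
  have e1 : (f - c0) 0 = f 0 - 1 / 9 := by simp [c0]
  have e2 : (f - c0) 1 = f 1 - 2 / 9 := by simp [c0]
  rw [e1, e2]
  obtain ⟨x, hx⟩ : ∃ x, x = f 0 - 1 / 9 := ⟨_, rfl⟩
  obtain ⟨y, hy⟩ : ∃ y, y = f 1 - 2 / 9 := ⟨_, rfl⟩
  have hx' : f 0 = x + 1 / 9 := by rw [hx]; ring
  have hy' : f 1 = y + 2 / 9 := by rw [hy]; ring
  rw [hx', hy'] at h1 h2
  rw [← hx, ← hy]
  have q1 : x ^ 2 - x * y + 5 / 2 * y ^ 2 + y - 1 ≤ 0 := by linarith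
  have q2 : x ^ 2 + x * y + 5 / 2 * y ^ 2 + y - 1 ≤ 0 := by linarith
  have q3 : x ^ 2 + |x| * |y| + 5 / 2 * y ^ 2 + y - 1 ≤ 0 := by
    rw [← abs_mul]
    rcases abs_cases (x * y) with ⟨h, -⟩ | ⟨h, -⟩ <;> rw [h] <;> linarith
  rcases le_total 0 y with h | h
  · have h7 := mul_nonneg (abs_nonneg x) (abs_nonneg y)
    have h8 := sq_nonneg y
    linarith
  · rw [abs_of_nonpos h] at q3
    have hxx : x ^ 2 = |x| ^ 2 := (sq_abs x).symm
    rw [hxx] at q3 ⊢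
    have hx0 := abs_nonneg x
    generalize |x| = u at *
    obtain ⟨v, hv⟩ : ∃ v, v = -y := ⟨_, rfl⟩
    have hyv : y = -v := by rw [hv]; ring
    have hv0 : 0 ≤ v := by rw [hv]; linarith
    rw [hyv] at q3 ⊢
    by_cases hc : 1 ≤ u + 3 / 2 * v
    · have h7 := mul_nonneg hv0 (sub_nonneg.2 hc)
      linarith
    · push Not at hc
      have h3 : u ≤ 1 - 3 / 2 * v := by linarith
      have h4 : u ^ 2 ≤ (1 - 3 / 2 * v) ^ 2 := by
        apply pow_le_pow_left₀ hx0 h3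
      have h5 : v ≤ 2 / 3 := by linarith
      have h7 := mul_nonneg hv0 (sub_nonneg.2 h5)
      linarith

/-- the points `c0 ± (1, 0)` -/
noncomputable def pt (s : ℝ) : E2 := !₂[1/9 + s, 2/9]

lemma pt_mem {s : ℝ} (hs : s = 1 ∨ s = -1) : pt s ∈ consistent P0 L0 e0 e0 y0 := by
  rw [mem_iff]
  have e1 : (pt s) 0 = 1 / 9 + s := by simp [pt]
  have e2 : (pt s) 1 = 2 / 9 := by simp [pt]
  rw [e1, e2]
  rcases hs with h | h <;> rw [h] <;> constructor <;> norm_num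

lemma bdd (w : E2) : BddAbove ((fun f => ‖f - w‖) '' consistent P0 L0 e0 e0 y0) := by
  refine ⟨1 + ‖c0 - w‖, ?_⟩
  rintro _ ⟨f, hf, rfl⟩
  have h1 : f - w = (f - c0) + (c0 - w) := by abel
  simp only
  rw [h1]
  exact (norm_add_le _ _).trans (add_le_add (in_disc hf) le_rfl)

lemma rad_center : rad (consistent P0 L0 e0 e0 y0) c0 ≤ 1 := by
  unfold rad
  apply csSup_le
  · exact ⟨_, pt 1, pt_mem (Or.inl rfl), rfl⟩
  · rintro _ ⟨f, hf, rfl⟩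
    exact in_disc hf

lemma rad_ge (w : E2) : 1 + ‖c0 - w‖ ^ 2 ≤ rad (consistent P0 L0 e0 e0 y0) w ^ 2 := by
  have h1 : ‖pt 1 - w‖ ≤ rad (consistent P0 L0 e0 e0 y0) w :=
    le_csSup (bdd w) ⟨_, pt_mem (Or.inl rfl), rfl⟩
  have h2 : ‖pt (-1) - w‖ ≤ rad (consistent P0 L0 e0 e0 y0) w :=
    le_csSup (bdd w) ⟨_, pt_mem (Or.inr rfl), rfl⟩
  have h3 := pow_le_pow_left₀ (norm_nonneg _) h1 2
  have h4 := pow_le_pow_left₀ (norm_nonneg _) h2 2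
  rw [nsq] at h3 h4
  have e1 : (pt 1 - w) 0 = 1 / 9 + 1 - w 0 := by simp [pt]
  have e2 : (pt 1 - w) 1 = 2 / 9 - w 1 := by simp [pt]
  have e3 : (pt (-1) - w) 0 = 1 / 9 + -1 - w 0 := by simp [pt]
  have e4 : (pt (-1) - w) 1 = 2 / 9 - w 1 := by simp [pt]
  rw [e1, e2] at h3
  rw [e3, e4] at h4
  rw [nsq]
  have e5 : (c0 - w) 0 = 1 / 9 - w 0 := by simp [c0]
  have e6 : (c0 - w) 1 = 2 / 9 - w 1 := by simp [c0]
  rw [e5, e6]
  linarith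

lemma center_iff (z : E2) (hz : IsChebyshevCenter (consistent P0 L0 e0 e0 y0) z) : z = c0 := by
  have h1 := hz c0
  have h2 := rad_ge z
  have h3 : 0 ≤ rad (consistent P0 L0 e0 e0 y0) z :=
    (norm_nonneg _).trans (le_csSup (bdd z) ⟨_, pt_mem (Or.inl rfl), rfl⟩)
  have h4 : rad (consistent P0 L0 e0 e0 y0) z ≤ 1 := h1.trans rad_center
  have h5 : ‖c0 - z‖ ^ 2 ≤ 0 := by nlinarith
  have h6 : ‖c0 - z‖ = 0 := by
    have := norm_nonneg (c0 - z)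
    nlinarith
  exact (sub_eq_zero.1 (norm_eq_zero.1 h6)).symm

lemma center_c0 : IsChebyshevCenter (consistent P0 L0 e0 e0 y0) c0 := by
  intro w
  have h1 := rad_ge w
  have h3 : 0 ≤ rad (consistent P0 L0 e0 e0 y0) w :=
    (norm_nonneg _).trans (le_csSup (bdd w) ⟨_, pt_mem (Or.inl rfl), rfl⟩)
  have h4 : 1 ≤ rad (consistent P0 L0 e0 e0 y0) w := by
    have := sq_nonneg ‖c0 - w‖
    nlinarith
  exact rad_center.trans h4

/-- **A Chebyshev center that minimises none of the functionals `F_τ`**: `H = ℝ²`, `m = 2`. -/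
theorem result : ∃ (P : EuclideanSpace ℝ (Fin 2) →ₗ[ℝ] EuclideanSpace ℝ (Fin 2))
    (L : EuclideanSpace ℝ (Fin 2) →ₗ[ℝ] EuclideanSpace ℝ (Fin 2)) (ε η : ℝ)
    (y : EuclideanSpace ℝ (Fin 2)),
    0 < ε ∧ 0 < η ∧ LinearMap.ker P ⊓ LinearMap.ker L = ⊥ ∧
    (consistent P L ε η y).Nonempty ∧
    (∃ z, IsChebyshevCenter (consistent P L ε η y) z) ∧
    ∀ z, IsChebyshevCenter (consistent P L ε η y) z →
      ∀ τ : ℝ, 0 ≤ τ → τ ≤ 1 → ¬ ∀ f, F P L y τ z ≤ F P L y τ f := by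
  refine ⟨P0, L0, e0, e0, y0, e0_pos, e0_pos, ?_, ⟨_, pt_mem (Or.inl rfl)⟩, ⟨c0, center_c0⟩,
    fun z hz τ _ _ hmin => ?_⟩
  · rw [eq_bot_iff]
    rintro f ⟨hf, -⟩
    have h1 : P0 f = 0 := hf
    have h2 := nP f
    rw [h1, norm_zero] at h2
    have h3 : f 1 = 0 := by nlinarith [sq_nonneg (f 0 - f 1 / 2), sq_nonneg (f 1)]
    have h4 : f 0 = 0 := by
      rw [h3] at h2
      nlinarith [sq_nonneg (f 0)]
    rw [Submodule.mem_bot]
    ext i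
    fin_cases i
    · exact h4
    · exact h3
  · have h1 := hmin (!₂[1/9, 2/9 - 1/5])
    rw [center_iff z hz] at h1
    unfold F at h1
    rw [nP, nP, nL, nL] at h1
    have e1 : c0 0 = 1 / 9 := by simp [c0]
    have e2 : c0 1 = 2 / 9 := by simp [c0]
    have e3 : (!₂[1/9, 2/9 - 1/5] : E2) 0 = 1 / 9 := by simp
    have e4 : (!₂[1/9, 2/9 - 1/5] : E2) 1 = 2 / 9 - 1 / 5 := by simp
    rw [e1, e2, e3, e4] at h1
    ring_nf at h1
    linarith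

end Pool.Agent.Results.MP_ef9ba3_an.RealCounterexample
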